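import Pool.Agent.Q283.FG.Stm2
import Pool.Agent.Q38.EN.EEX

/-!
# Project FG of helper283, job SBM: the subspace of the classes with the local conditions (by helper153)

Template: `Pool/Agent/Q150/FT/SBM.lean` (helper150).
-/

set_option autoImplicit false

namespace Pool.Agent.Q153.FG

open NumberField IsDedekindDomain Finset
open Pool.Agent.Q7.LK Pool.Agent.Q14.LK
open Pool.Agent.Q283.FT (U2)
open Pool.Agent.Q283.FG (Bs Nr LocR Mem S_SBM)
open Pool.Agent.Q283.LQ (Sm nS)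

section

variable {F : Type} [Field F] [NumberField F]

/-- products -/
theorem nr_mul (hB : S_BAS) {y : ℕ} {a b : F} (h : Nr y a) (h' : Nr y b) : Nr y (a * b) := by
  have : Fact (Nat.Prime 2) := ⟨Nat.prime_two⟩
  refine ⟨nn_mul hB h.1 h'.1, fun φ => ?_⟩
  rw [map_mul]
  exact mul_pos (h.2 φ) (h'.2 φ)

/-- changes by squares -/
theorem nr_iff (hB : S_BAS) {y : ℕ} {a b x : F} (hx : x ≠ 0) (h : a = b * x ^ 2) : Nr y a ↔ Nr y b := by
  have : Fact (Nat.Prime 2) := ⟨Nat.prime_two⟩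
  have h2 : ∀ φ : F →+* ℝ, 0 < φ a ↔ 0 < φ b := by
    intro φ
    have h3 : 0 < φ x ^ 2 := by
      have : φ x ≠ 0 := (map_ne_zero φ).2 hx
      positivity
    rw [h, map_mul, map_pow]
    exact mul_pos_iff_of_pos_right h3
  have h1 : Nn 2 y a ↔ Nn 2 y b := by
    rw [h]
    exact ⟨fun h1 => nn_of_mul_pp hB hx h1, fun h1 => nn_mul hB h1 (nn_pp hB y hx)⟩
  unfold Nr
  rw [h1]
  exact and_congr_right fun _ => forall_congr' h2

theorem nr_one (hB : S_BAS) (y : ℕ) : Nr y (1 : F) :=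
  have : Fact (Nat.Prime 2) := ⟨Nat.prime_two⟩
  ⟨nn_one hB y, fun φ => by rw [map_one]; exact one_pos⟩

variable {ζ : F} {y f : ℕ} {u r : Fin f → F} {π : HeightOneSpectrum (𝓞 F) → F}
  {g : (Fin f → ZMod 2) → (Fin f → ZMod 2) → ZMod 2}

/-- products of classes -/
theorem nr_add (hB : S_BAS) (B : Bs ζ y f u r π g) {a a' : F} {c c' d d' : Fin f → ZMod 2}
    (hN : Nr y (a * mon r c * mon u d)) (hN' : Nr y (a' * mon r c' * mon u d')) :
    Nr y (a * a' * mon r (c + c') * mon u (d + d')) := by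
  have : Fact (Nat.Prime 2) := ⟨Nat.prime_two⟩
  obtain ⟨z, hz, h1⟩ := mon_add B.re c c'
  obtain ⟨w, hw, h2⟩ := mon_add B.ue d d'
  have h3 : a * a' * mon r (c + c') * mon u (d + d') * (z * w) ^ 2 =
      (a * mon r c * mon u d) * (a' * mon r c' * mon u d') := by
    rw [mul_pow]
    calc a * a' * mon r (c + c') * mon u (d + d') * (z ^ 2 * w ^ 2)
        = a * a' * (mon r (c + c') * z ^ 2) * (mon u (d + d') * w ^ 2) := by ring
      _ = a * a' * (mon r c * mon r c') * (mon u d * mon u d') := by rw [h1, h2]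
      _ = _ := by ring
  exact (nr_iff hB (mul_ne_zero hz hw) h3.symm).1 (nr_mul hB hN hN')

/-- the quotient of two elements of one class -/
theorem nr_div (hB : S_BAS) (B : Bs ζ y f u r π g) {a a' : F} (ha' : a' ≠ 0) {c d : Fin f → ZMod 2}
    (hN : Nr y (a * mon r c * mon u d)) (hN' : Nr y (a' * mon r c * mon u d)) : Nr y (a / a') := by
  have : Fact (Nat.Prime 2) := ⟨Nat.prime_two⟩
  have h1 : (a * mon r c * mon u d) * (a' * mon r c * mon u d) =
      a / a' * (a' * mon r c * mon u d) ^ 2 := by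
    field_simp
  have h2 : a' * mon r c * mon u d ≠ 0 :=
    mul_ne_zero (mul_ne_zero ha' (mon_ne B.re _)) (mon_ne B.ue _)
  exact (nr_iff hB h2 h1).1 (nr_mul hB hN hN')

end

/-- **JOB SBM.** -/
theorem sbm (hBAS : S_BAS) : S_SBM := by
  classical
  intro F _ _ ζ hζ y f u r π g B A R hL
  have : Fact (Nat.Prime 2) := ⟨Nat.prime_two⟩
  obtain ⟨P, hP⟩ : ∃ P : (Fin f → U2) × (Fin f → U2) → Prop, P = fun z =>
      ∃ a b : F, a ≠ 0 ∧ b ≠ 0 ∧
        Nr y (a * mon r (fun t => (z.2 t).1) * mon u (fun t => (z.1 t).1)) ∧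
        Nr y (b * mon r (fun t => (z.2 t).2) * mon u (fun t => (z.1 t).2)) ∧
        (∀ v : HeightOneSpectrum (𝓞 F), Sm y v → A v a b) ∧ ∀ φ : F →+* ℝ, R φ a b := ⟨_, rfl⟩
  have hadd : ∀ x x', P x → P x' → P (x + x') := by
    rw [hP]
    rintro x x' ⟨a, b, ha, hb, hN, hM, hA, hR⟩ ⟨a', b', ha', hb', hN', hM', hA', hR'⟩
    exact ⟨a * a', b * b', mul_ne_zero ha ha', mul_ne_zero hb hb', nr_add hBAS B hN hN',
      nr_add hBAS B hM hM', fun v hv => hL.fin.mul v a b a' b' hv (hA v hv) (hA' v hv),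
      fun φ => hL.rmul φ a b a' b' (hR φ) (hR' φ)⟩
  have hzero : P 0 := by
    rw [hP]
    have h1 : Nr y ((1 : F) * mon r (0 : Fin f → ZMod 2) * mon u (0 : Fin f → ZMod 2)) := by
      rw [mon_zero, mon_zero, mul_one, mul_one]
      exact nr_one hBAS y
    refine ⟨1, 1, one_ne_zero, one_ne_zero, h1, h1,
      fun v hv => hL.fin.pow v 1 1 hv (lpw_one hBAS v) (lpw_one hBAS v), fun φ => hL.rpos φ 1 1 ?_ ?_⟩
    · rw [map_one]; exact one_pos
    · rw [map_one]; exact one_pos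
  let M : AddSubmonoid ((Fin f → U2) × (Fin f → U2)) :=
    { carrier := {x | P x}
      add_mem' := fun {x x'} hx hx' => hadd x x' hx hx'
      zero_mem' := hzero }
  let E : Submodule (ZMod 2) ((Fin f → U2) × (Fin f → U2)) :=
    { M with
      smul_mem' := fun c x hx => by
        have h1 : c • x = c.val • x := by
          rw [← Nat.cast_smul_eq_nsmul (ZMod 2), ZMod.natCast_zmod_val]
        change c • x ∈ M
        rw [h1]
        exact M.nsmul_mem hx _ }
  refine ⟨E, ?_⟩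
  intro a b x x' ha hb hN hM
  have hmem : (((fun t => (x.2 t, x'.2 t)), fun t => (x.1 t, x'.1 t)) :
      (Fin f → U2) × (Fin f → U2)) ∈ E ↔ P ((fun t => (x.2 t, x'.2 t)), fun t => (x.1 t, x'.1 t)) :=
    Iff.rfl
  rw [hmem, hP]
  constructor
  · rintro ⟨a', b', ha', hb', hN', hM', hA', hR'⟩
    have h1 := nr_div hBAS B ha' hN hN'
    have h2 := nr_div hBAS B hb' hM hM'
    have h4 : a' * (a / a') = a := by field_simp
    have h5 : b' * (b / b') = b := by field_simp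
    refine ⟨fun v hv => ?_, fun φ => ?_⟩
    · have h3 := hL.fin.mul v a' b' (a / a') (b / b') hv (hA' v hv) (hL.fin.pow v _ _ hv (h1.1.2 v hv) (h2.1.2 v hv))
      rwa [h4, h5] at h3
    · have h3 := hL.rmul φ a' b' (a / a') (b / b') (hR' φ) (hL.rpos φ _ _ (h1.2 φ) (h2.2 φ))
      rwa [h4, h5] at h3
  · intro h
    exact ⟨a, b, ha, hb, hN, hM, h.1, h.2⟩

end Pool.Agent.Q153.FG
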