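import Pool.Agent.Q283.FG.Stm1
import Pool.Agent.Q149.FT.G0
import Pool.Agent.Q153.FG.SBM

/-!
# Project FG of helper283, job G0: good bases (by helper153)

One of the `u` is `-1` and the reciprocity is the classical one.  Template: `Pool/Agent/Q149/FT/G0.lean` (helper149).
-/

set_option autoImplicit false

namespace Pool.Agent.Q153.FG

open NumberField IsDedekindDomain Finset
open Pool.Agent.Q7.LK Pool.Agent.Q14.LK
open Pool.Agent.Q283.FG (Bs Nr Hb Frm gs S_G0)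
open Pool.Agent.Q283.LQ (Sm nS)
open Pool.Agent.Q283.EN (Alt)
open Pool.Agent.Q149.FT (bta g_bta rn mon_new pin)

/-! ## Linear algebra -/

section Lin

variable {f : ℕ}

theorem zz (a : ZMod 2) : a + a = 0 := CharTwo.add_self_eq_zero a

theorem one_of_ne : ∀ a : ZMod 2, a ≠ 0 → a = 1 := by decide

theorem vv (c : Fin f → ZMod 2) : c + c = 0 := funext fun l => zz (c l)

theorem dot_add_right (φ c d : Fin f → ZMod 2) : dot φ (c + d) = dot φ c + dot φ d := by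
  simp only [dot, Pi.add_apply, mul_add, sum_add_distrib]

theorem dot_zero_right (φ : Fin f → ZMod 2) : dot φ 0 = 0 := by
  simp only [dot, Pi.zero_apply, mul_zero, sum_const_zero]

theorem dot_zero_left (φ : Fin f → ZMod 2) : dot 0 φ = 0 := by
  simp only [dot, Pi.zero_apply, zero_mul, sum_const_zero]

theorem dot_single (φ : Fin f → ZMod 2) (t : Fin f) : dot φ (Pi.single t 1) = φ t := by
  unfold dot
  rw [sum_eq_single t]
  · rw [Pi.single_eq_same, mul_one]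
  · intro l _ hl
    rw [Pi.single_eq_of_ne hl, mul_zero]
  · intro h
    exact absurd (mem_univ t) h

/-- the change of the coordinates with respect to the `u` -/
def tC (ς : Fin f → ZMod 2) (t : Fin f) (c : Fin f → ZMod 2) : Fin f → ZMod 2 :=
  fun m => (if m = t then 0 else c m) + c t * ς m

/-- its matrix -/
def tM (ς : Fin f → ZMod 2) (t : Fin f) (l : Fin f) : Fin f → ZMod 2 :=
  if l = t then ς else Pi.single l 1

/-- the change of the coordinates with respect to the `r` -/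
def tA (ς : Fin f → ZMod 2) (t : Fin f) (φ : Fin f → ZMod 2) : Fin f → ZMod 2 :=
  fun m => dot φ (tM ς t m)

variable {ς : Fin f → ZMod 2} {t : Fin f}

theorem tC_eq (c : Fin f → ZMod 2) : ∑ l, c l • tM ς t l = tC ς t c := by
  classical
  funext m
  rw [Finset.sum_apply]
  simp only [Pi.smul_apply, smul_eq_mul]
  rw [← Finset.add_sum_erase univ _ (mem_univ t)]
  have h1 : ∀ l ∈ univ.erase t, c l * tM ς t l m = if m = l then c l else 0 := by
    intro l hl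
    have h2 : l ≠ t := ne_of_mem_erase hl
    unfold tM
    rw [if_neg h2, Pi.single_apply]
    split
    · rw [mul_one]
    · rw [mul_zero]
  rw [sum_congr rfl h1, Finset.sum_ite_eq (univ.erase t) m c]
  unfold tC tM
  rw [if_pos rfl]
  by_cases h : m = t
  · rw [if_neg (fun h' => ne_of_mem_erase h' h), if_pos h, add_comm]
  · rw [if_pos (mem_erase.2 ⟨h, mem_univ m⟩), if_neg h, add_comm]

theorem tC_tC (h : ς t = 1) (c : Fin f → ZMod 2) : tC ς t (tC ς t c) = c := by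
  funext m
  unfold tC
  rw [if_pos rfl, h, zero_add, mul_one]
  by_cases hm : m = t
  · rw [if_pos hm, zero_add, hm, h, mul_one]
  · rw [if_neg hm, if_neg hm, add_assoc, zz, add_zero]

theorem tC_zero : tC ς t 0 = 0 := by
  funext m
  unfold tC
  simp only [Pi.zero_apply, ite_self, zero_mul, add_zero]

theorem dot_tA (φ c : Fin f → ZMod 2) : dot (tA ς t φ) c = dot φ (tC ς t c) := by
  rw [← tC_eq]
  unfold dot tA dot
  simp only [Finset.sum_apply, Pi.smul_apply, smul_eq_mul, sum_mul, mul_sum]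
  rw [sum_comm]
  exact sum_congr rfl fun l _ => sum_congr rfl fun m _ => by ring

theorem dot_tA_tC (h : ς t = 1) (φ c : Fin f → ZMod 2) : dot (tA ς t φ) (tC ς t c) = dot φ c := by
  rw [dot_tA, tC_tC h]

theorem dot_ext {φ φ' : Fin f → ZMod 2} (h : ∀ c, dot φ c = dot φ' c) : φ = φ' := by
  funext t
  rw [← dot_single φ t, h, dot_single]

theorem tA_tA (h : ς t = 1) (φ : Fin f → ZMod 2) : tA ς t (tA ς t φ) = φ :=
  dot_ext fun c => by rw [dot_tA, dot_tA, tC_tC h]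

end Lin

/-! ## Changes of bases -/

section F

variable {F : Type} [Field F] [NumberField F] {ζ : F} {y f : ℕ} {u r : Fin f → F}
  {π : HeightOneSpectrum (𝓞 F) → F} {g : (Fin f → ZMod 2) → (Fin f → ZMod 2) → ZMod 2}

omit [NumberField F] in
/-- monomials in monomials -/
theorem mon_mat {v : Fin f → F} (hu : ∀ l, u l ≠ 0) (M : Fin f → Fin f → ZMod 2)
    (h : ∀ l, ∃ x : F, x ≠ 0 ∧ v l = mon u (M l) * x ^ 2) (c : Fin f → ZMod 2) :
    ∃ x : F, x ≠ 0 ∧ mon v c = mon u (∑ l, c l • M l) * x ^ 2 := by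
  have : Fact (Nat.Prime 2) := ⟨Nat.prime_two⟩
  choose w hw h0 using h
  choose x hx h1 using fun l => mon_smul hu (c l) (M l)
  obtain ⟨z, hz, h2⟩ := mon_sum hu univ fun l => c l • M l
  refine ⟨(z * ∏ l, x l) * ∏ l, w l ^ (c l).val, mul_ne_zero (mul_ne_zero hz
    (prod_ne_zero_iff.2 fun l _ => hx l)) (prod_ne_zero_iff.2 fun l _ => pow_ne_zero _ (hw l)), ?_⟩
  have h3 : mon v c = (∏ l, mon u (M l) ^ (c l).val) * (∏ l, w l ^ (c l).val) ^ 2 := by
    unfold mon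
    rw [← prod_pow, ← prod_mul_distrib]
    refine prod_congr rfl fun l _ => ?_
    have h4 := h0 l
    unfold mon at h4
    rw [h4, mul_pow, ← pow_mul, ← pow_mul, mul_comm 2]
  rw [h3, prod_congr rfl fun l _ => h1 l, prod_mul_distrib, prod_pow, h2, mul_pow, mul_pow]
  ring

/-- the classes with respect to the new base -/
theorem key (hB : S_BAS) (B : Bs ζ y f u r π g) {u' r' : Fin f → F}
    {A C β : (Fin f → ZMod 2) → (Fin f → ZMod 2)}
    (hmu : ∀ c : Fin f → ZMod 2, ∃ x : F, x ≠ 0 ∧ mon u' c = mon u (C c) * x ^ 2)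
    (hmr : ∀ φ : Fin f → ZMod 2, ∃ x : F, x ≠ 0 ∧ mon r' φ = mon r (A φ) * mon u (β (A φ)) * x ^ 2)
    (b : F) (x : (Fin f → ZMod 2) × (Fin f → ZMod 2)) :
    Nr y (b * mon r' x.1 * mon u' x.2) ↔ Nr y (b * mon r (A x.1) * mon u (C x.2 + β (A x.1))) := by
  have : Fact (Nat.Prime 2) := ⟨Nat.prime_two⟩
  obtain ⟨z, hz, h1⟩ := hmr x.1
  obtain ⟨w, hw, h2⟩ := hmu x.2
  obtain ⟨v, hv, h3⟩ := mon_add B.ue (C x.2) (β (A x.1))
  refine nr_iff hB (mul_ne_zero (mul_ne_zero hv hw) hz) ?_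
  calc b * mon r' x.1 * mon u' x.2
      = b * mon r (A x.1) * (mon u (C x.2) * mon u (β (A x.1))) * (w * z) ^ 2 := by rw [h1, h2]; ring
    _ = b * mon r (A x.1) * mon u (C x.2 + β (A x.1)) * (v * w * z) ^ 2 := by rw [h3]; ring

/-- the new base -/
theorem bs_change (hB : S_BAS) (hζ : IsPrimitiveRoot ζ 2) (B : Bs ζ y f u r π g) {u' r' : Fin f → F}
    {π' : HeightOneSpectrum (𝓞 F) → F} {g' : (Fin f → ZMod 2) → (Fin f → ZMod 2) → ZMod 2}
    {A C β : (Fin f → ZMod 2) → (Fin f → ZMod 2)}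
    (hA : ∀ φ, A (A φ) = φ) (hC : ∀ c, C (C c) = c) (hC0 : C 0 = 0)
    (hu : ∀ l, u' l ≠ 0) (hr : ∀ l, r' l ≠ 0)
    (hu0 : ∀ l v, ¬ Sm y v → vl 2 v (u' l) = 0)
    (hmu : ∀ c : Fin f → ZMod 2, ∃ x : F, x ≠ 0 ∧ mon u' c = mon u (C c) * x ^ 2)
    (hmr : ∀ φ : Fin f → ZMod 2, ∃ x : F, x ≠ 0 ∧ mon r' φ = mon r (A φ) * mon u (β (A φ)) * x ^ 2)
    (hπ : ∀ q, π' q = π q * mon u (β (fun l => sy 2 ζ q (u l))))
    (hsy : ∀ q, ¬ Sm y q → (fun l => sy 2 ζ q (u' l)) = A (fun l => sy 2 ζ q (u l)))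
    (hg : ∀ φ φ', g' φ φ' = g (A φ) (A φ') + dot (A φ') (β (A φ)) + dot (A φ) (β (A φ'))) :
    Bs ζ y f u' r' π' g' := by
  have : Fact (Nat.Prime 2) := ⟨Nat.prime_two⟩
  have hvm : ∀ (c : Fin f → ZMod 2) (v : HeightOneSpectrum (𝓞 F)), ¬ Sm y v → vl 2 v (mon u c) = 0 :=
    fun c v hv => vl_mon hB B.ue v (fun l => B.uo l v hv) c
  refine ⟨B.two, hu, hr, hu0, ?_, ?_, ?_, ?_, ?_, ?_⟩
  · rintro c ⟨z, hz⟩
    obtain ⟨x, hx, h1⟩ := hmu c
    have h2 : C c = 0 := B.ind (C c) ⟨z / x, by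
      rw [div_pow, ← hz, h1]
      field_simp⟩
    rw [← hC c, h2, hC0]
  · intro a ha hv
    obtain ⟨c, z, hz⟩ := B.full a ha hv
    obtain ⟨x, hx, h1⟩ := hmu (C c)
    refine ⟨C c, z * x, ?_⟩
    rw [h1, hC, mul_pow, ← hz]
    ring
  · intro q hq
    obtain ⟨h1, h2⟩ := B.po q hq
    rw [hπ]
    refine ⟨mul_ne_zero h1 (mon_ne B.ue _), fun v hv => ?_⟩
    rw [vl_mul hB v h1 (mon_ne B.ue _), hvm _ v hv, add_zero]
    exact h2 v hv
  · intro b hb
    obtain ⟨z, hz, hu1⟩ := B.cls b hb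
    refine ⟨(A z.1, C (z.2 + β z.1)), ?_, ?_⟩
    · refine (key hB B hmu hmr b _).2 ?_
      show Nr y (b * mon r (A (A z.1)) * mon u (C (C (z.2 + β z.1)) + β (A (A z.1))))
      rw [hA, hC, add_assoc, vv, add_zero]
      exact hz
    · intro x hx
      have h1 := hu1 (A x.1, C x.2 + β (A x.1)) ((key hB B hmu hmr b x).1 hx)
      have h2 : A x.1 = z.1 := by rw [← h1]
      have h3 : C x.2 + β (A x.1) = z.2 := by rw [← h1]
      refine Prod.ext ?_ ?_
      · show x.1 = A z.1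
        rw [← h2, hA]
      · show x.2 = C (z.2 + β z.1)
        rw [← h3, h2, add_assoc, vv, add_zero, hC]
  · intro q hq
    have h1 := B.pc q hq
    obtain ⟨z, hz, h2⟩ := hmr (A (fun l => sy 2 ζ q (u l)))
    rw [hsy q hq, h2, hA, hπ]
    refine (nr_iff hB (mul_ne_zero (mon_ne B.ue (β fun l => sy 2 ζ q (u l))) hz) ?_).2 h1
    ring
  · intro q q' hq hq' hne
    have hd : ¬ Dp 2 q := fun h => hq (Pool.Agent.Q123.LK.sm_of_dp B.two h)
    have hd' : ¬ Dp 2 q' := fun h => hq' (Pool.Agent.Q123.LK.sm_of_dp B.two h)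
    obtain ⟨h1, h2⟩ := B.po q hq
    obtain ⟨h1', h2'⟩ := B.po q' hq'
    have e1 := (h2 q' hq').2 hne.symm
    have e2 := (h2' q hq).2 hne
    rw [hsy q hq, hsy q' hq', hg, hA, hA, hπ, hπ,
      Pool.Agent.Q123.LK.sy_mul hB hζ hd' h1 (mon_ne B.ue _) e1 (hvm _ q' hq'),
      Pool.Agent.Q123.LK.sy_mul hB hζ hd h1' (mon_ne B.ue _) e2 (hvm _ q hq),
      Pool.Agent.Q123.LK.sy_mon hB hζ hd' B.ue (fun l => B.uo l q' hq'),
      Pool.Agent.Q123.LK.sy_mon hB hζ hd B.ue (fun l => B.uo l q hq), ← B.rcp q q' hq hq' hne]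
    ring

/-- the form in the new coordinates -/
theorem frm_change (hB : S_BAS) (B : Bs ζ y f u r π g) {t : HeightOneSpectrum (𝓞 F) → F → F → ZMod 2}
    {s : (F →+* ℝ) → F → F → ZMod 2} (hF : Frm t s y u r g) {u' r' : Fin f → F}
    {g' : (Fin f → ZMod 2) → (Fin f → ZMod 2) → ZMod 2}
    {A C β : (Fin f → ZMod 2) → (Fin f → ZMod 2)}
    (hmu : ∀ c : Fin f → ZMod 2, ∃ x : F, x ≠ 0 ∧ mon u' c = mon u (C c) * x ^ 2)
    (hmr : ∀ φ : Fin f → ZMod 2, ∃ x : F, x ≠ 0 ∧ mon r' φ = mon r (A φ) * mon u (β (A φ)) * x ^ 2)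
    (hd : ∀ φ c, dot (A φ) (C c) = dot φ c)
    (hg : ∀ φ φ', g' φ φ' = g (A φ) (A φ') + dot (A φ') (β (A φ)) + dot (A φ) (β (A φ'))) :
    Frm t s y u' r' g' := by
  intro a b x x' ha hb h h'
  have h1 := (key hB B hmu hmr a x).1 h
  have h2 := (key hB B hmu hmr b x').1 h'
  have h3 := hF a b (A x.1, C x.2 + β (A x.1)) (A x'.1, C x'.2 + β (A x'.1)) ha hb h1 h2
  rw [h3]
  show dot (A x.1) (C x'.2 + β (A x'.1)) + dot (A x'.1) (C x.2 + β (A x.1)) + g (A x.1) (A x'.1) = _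
  rw [dot_add_right, dot_add_right, hd, hd, hg]
  ring

/-! ## The sum of the symbols -/

theorem finite_emb : Finite (F →+* ℝ) := by
  infer_instance

/-- the sum of the symbols -/
noncomputable def TT (t : HeightOneSpectrum (𝓞 F) → F → F → ZMod 2) (s : (F →+* ℝ) → F → F → ZMod 2) (y : ℕ)
    (a b : F) : ZMod 2 := ∑ᶠ v : {v : HeightOneSpectrum (𝓞 F) // Sm y v}, t v.1 a b + ∑ᶠ φ, s φ a b

variable {t : HeightOneSpectrum (𝓞 F) → F → F → ZMod 2} {s : (F →+* ℝ) → F → F → ZMod 2}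

theorem TT_mul (H : Hb ζ t s) (hfin : {v : HeightOneSpectrum (𝓞 F) | Sm y v}.Finite) {a b c : F} (ha : a ≠ 0)
    (hb : b ≠ 0) (hc : c ≠ 0) : TT t s y (a * b) c = TT t s y a c + TT t s y b c := by
  have h1 : Finite {v : HeightOneSpectrum (𝓞 F) // Sm y v} := hfin
  have h2 : Finite (F →+* ℝ) := finite_emb
  unfold TT
  simp only [H.mul _ a b c ha hb hc, H.rmul _ a b c ha hb hc]
  rw [finsum_add_distrib (Set.toFinite _) (Set.toFinite _), finsum_add_distrib (Set.toFinite _) (Set.toFinite _)]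
  ring

theorem TT_sym (H : Hb ζ t s) {a b : F} (ha : a ≠ 0) (hb : b ≠ 0) : TT t s y a b = TT t s y b a := by
  unfold TT
  rw [finsum_congr fun v : {v : HeightOneSpectrum (𝓞 F) // Sm y v} => H.sym v.1 a b ha hb,
    finsum_congr fun φ => H.rsym φ a b ha hb]

theorem TT_neg (H : Hb ζ t s) {a : F} (ha : a ≠ 0) : TT t s y a (-a) = 0 := by
  have h0 : -a ≠ 0 := neg_ne_zero.2 ha
  have h1 : ∀ v, t v a (-a) = 0 := fun v => H.nrm v a (-a) 0 1 ha h0 (by ring)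
  have h2 : ∀ φ, s φ a (-a) = 0 := by
    intro φ
    have h3 : φ a ≠ 0 := (map_ne_zero φ).2 ha
    rcases lt_or_gt_of_ne h3 with h4 | h4
    · rw [H.rsym φ a (-a) ha h0]
      refine H.rpos φ (-a) a ?_ ha
      rw [map_neg]
      exact neg_pos.2 h4
    · exact H.rpos φ a (-a) h4 h0
  unfold TT
  simp only [h1, h2, finsum_zero, add_zero]

theorem TT_self (H : Hb ζ t s) (hfin : {v : HeightOneSpectrum (𝓞 F) | Sm y v}.Finite) {a : F} (ha : a ≠ 0) :
    TT t s y a a = TT t s y a (-1) := by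
  have h1 := TT_neg (y := y) H ha
  have h0 : (-1 : F) ≠ 0 := neg_ne_zero.2 one_ne_zero
  rw [TT_sym H ha (neg_ne_zero.2 ha), ← neg_one_mul, TT_mul H hfin h0 ha ha, TT_sym H h0 ha] at h1
  exact (CharTwo.add_eq_zero.1 h1).symm

/-! ## The reciprocity form -/

omit [NumberField F] in
theorem mon_single (w : Fin f → F) (l : Fin f) : mon w (Pi.single l 1 : Fin f → ZMod 2) = w l := by
  unfold mon
  rw [prod_eq_single l]
  · rw [Pi.single_eq_same]
    exact pow_one _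
  · intro m _ hm
    rw [Pi.single_eq_of_ne hm, ZMod.val_zero, pow_zero]
  · intro h
    exact absurd (mem_univ l) h

theorem g_rep (hB : S_BAS) (B : Bs ζ y f u r π g) (hF : Frm t s y u r g) (φ φ' : Fin f → ZMod 2) :
    g φ φ' = TT t s y (mon r φ) (mon r φ') := by
  have h1 : ∀ c : Fin f → ZMod 2, Nr y (mon r c * mon r c * mon u (0 : Fin f → ZMod 2)) := fun c =>
    (nr_iff hB (mon_ne B.re c) (by rw [mon_zero]; ring)).2 (nr_one hB y)
  have h2 := hF (mon r φ) (mon r φ') (φ, 0) (φ', 0) (mon_ne B.re _) (mon_ne B.re _) (h1 φ) (h1 φ')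
  unfold TT
  rw [h2, dot_zero_right, dot_zero_right, add_zero, zero_add]

theorem g_symm (hB : S_BAS) (B : Bs ζ y f u r π g) (H : Hb ζ t s) (hF : Frm t s y u r g)
    (φ φ' : Fin f → ZMod 2) : g φ φ' = g φ' φ := by
  rw [g_rep hB B hF, g_rep hB B hF, TT_sym H (mon_ne B.re _) (mon_ne B.re _)]

theorem g_add (hB : S_BAS) (B : Bs ζ y f u r π g) (H : Hb ζ t s) (hF : Frm t s y u r g)
    (hfin : {v : HeightOneSpectrum (𝓞 F) | Sm y v}.Finite) (φ ψ φ' : Fin f → ZMod 2) :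
    g (φ + ψ) φ' = g φ φ' + g ψ φ' := by
  have : Fact (Nat.Prime 2) := ⟨Nat.prime_two⟩
  obtain ⟨z, hz, h0⟩ := mon_add B.re φ ψ
  have h1 : Nr y (mon r φ' * mon r φ' * mon u (0 : Fin f → ZMod 2)) :=
    (nr_iff hB (mon_ne B.re φ') (by rw [mon_zero]; ring)).2 (nr_one hB y)
  have h3 : Nr y (mon r φ * mon r ψ * mon r (φ + ψ) * mon u (0 : Fin f → ZMod 2)) :=
    (nr_iff hB (mul_ne_zero (mon_ne B.re (φ + ψ)) hz) (by rw [mon_zero, h0]; ring)).2 (nr_one hB y)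
  have h2 := hF (mon r φ * mon r ψ) (mon r φ') (φ + ψ, 0) (φ', 0)
    (mul_ne_zero (mon_ne B.re _) (mon_ne B.re _)) (mon_ne B.re _) h3 h1
  rw [g_rep hB B hF φ, g_rep hB B hF ψ, ← TT_mul H hfin (mon_ne B.re _) (mon_ne B.re _) (mon_ne B.re _)]
  unfold TT
  rw [h2, dot_zero_right, dot_zero_right, add_zero, zero_add]

theorem g_zero_right (hB : S_BAS) (B : Bs ζ y f u r π g) (H : Hb ζ t s) (hF : Frm t s y u r g)
    (hfin : {v : HeightOneSpectrum (𝓞 F) | Sm y v}.Finite) (φ : Fin f → ZMod 2) : g φ 0 = 0 := by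
  rw [g_symm hB B H hF]
  have h := g_add hB B H hF hfin 0 0 φ
  rw [add_zero] at h
  exact left_eq_add.1 h

theorem g_self (hB : S_BAS) (B : Bs ζ y f u r π g) (H : Hb ζ t s) (hF : Frm t s y u r g)
    (hfin : {v : HeightOneSpectrum (𝓞 F) | Sm y v}.Finite) {t₀ : Fin f} (ht : u t₀ = -1) (φ : Fin f → ZMod 2) :
    g φ φ = φ t₀ := by
  have h1 : Nr y (mon r φ * mon r φ * mon u (0 : Fin f → ZMod 2)) :=
    (nr_iff hB (mon_ne B.re φ) (by rw [mon_zero]; ring)).2 (nr_one hB y)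
  have h3 : Nr y (-1 * mon r (0 : Fin f → ZMod 2) * mon u (Pi.single t₀ 1 : Fin f → ZMod 2)) := by
    rw [mon_zero, mon_single, ht, mul_one, neg_mul_neg, one_mul]
    exact nr_one hB y
  have h2 := hF (mon r φ) (-1) (φ, 0) (0, Pi.single t₀ 1) (mon_ne B.re _) (neg_ne_zero.2 one_ne_zero) h1 h3
  rw [g_rep hB B hF, TT_self H hfin (mon_ne B.re _)]
  unfold TT
  rw [h2, dot_zero_right, dot_single, g_zero_right hB B H hF hfin, add_zero, add_zero]

theorem alt_h (hB : S_BAS) (B : Bs ζ y f u r π g) (H : Hb ζ t s) (hF : Frm t s y u r g)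
    (hfin : {v : HeightOneSpectrum (𝓞 F) | Sm y v}.Finite) {t₀ : Fin f} (ht : u t₀ = -1) :
    Alt (fun φ φ' => g φ φ' + gs t₀ φ φ') where
  add a b c := by
    show g (a + b) c + (a + b) t₀ * c t₀ = g a c + a t₀ * c t₀ + (g b c + b t₀ * c t₀)
    rw [g_add hB B H hF hfin, Pi.add_apply]
    ring
  anti a b := by
    show g a b + a t₀ * b t₀ = -(g b a + b t₀ * a t₀)
    rw [CharTwo.neg_eq, g_symm hB B H hF, mul_comm]
  self a := by
    show g a a + a t₀ * a t₀ = 0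
    rw [g_self hB B H hF hfin ht]
    have h : ∀ z : ZMod 2, z + z * z = 0 := by decide
    exact h _

theorem vl_neg_one (v : HeightOneSpectrum (𝓞 F)) : vl 2 v (-1) = 0 := by
  unfold vl
  rw [Valuation.map_neg, map_one, WithZero.log_one, Int.cast_zero, neg_zero]

end F

/-- **JOB G0.** -/
theorem g0 (hBAS : S_BAS) : S_G0 := by
  have : Fact (Nat.Prime 2) := ⟨Nat.prime_two⟩
  intro F _ _ ζ hζ hi t s H y f u r π g B hF hfin
  have hm : (-1 : F) ≠ 0 := neg_ne_zero.2 one_ne_zero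
  -- the class of `-1`
  obtain ⟨ς, z, hz⟩ := B.full (-1) hm fun v _ => vl_neg_one v
  have hς : ς ≠ 0 := by
    rintro rfl
    rw [mon_zero, mul_one] at hz
    exact hi z hz.symm
  obtain ⟨t₀, ht₀⟩ : ∃ t₀, ς t₀ ≠ 0 := by
    by_contra h
    push Not at h
    exact hς (funext h)
  have hs : ς t₀ = 1 := one_of_ne _ ht₀
  have hms : mon u ς ≠ 0 := mon_ne B.ue ς
  have hz0 : z ≠ 0 := by
    rintro rfl
    rw [zero_pow two_ne_zero] at hz
    exact mul_ne_zero hm hms hz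
  -- the first change
  obtain ⟨u1, hu1⟩ : ∃ u1 : Fin f → F, u1 = fun l => if l = t₀ then -1 else u l := ⟨_, rfl⟩
  obtain ⟨r1, hr1⟩ : ∃ r1 : Fin f → F, r1 = fun l => mon r (fun m => tM ς t₀ m l) := ⟨_, rfl⟩
  have hue : ∀ l, ∃ x : F, x ≠ 0 ∧ u1 l = mon u (tM ς t₀ l) * x ^ 2 := by
    intro l
    rw [hu1]
    by_cases h : l = t₀
    · refine ⟨z / mon u ς, div_ne_zero hz0 hms, ?_⟩
      unfold tM
      beta_reduce
      rw [if_pos h, if_pos h, div_pow, ← hz]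
      field_simp
    · refine ⟨1, one_ne_zero, ?_⟩
      unfold tM
      beta_reduce
      rw [if_neg h, if_neg h, mon_single, one_pow, mul_one]
  have hu1e : ∀ l, u1 l ≠ 0 := by
    intro l
    obtain ⟨x, hx, h⟩ := hue l
    rw [h]
    exact mul_ne_zero (mon_ne B.ue _) (pow_ne_zero 2 hx)
  have hu1v : ∀ l v, ¬ Sm y v → vl 2 v (u1 l) = 0 := by
    intro l v hv
    rw [hu1]
    beta_reduce
    split
    · exact vl_neg_one v
    · exact B.uo l v hv
  have hmu : ∀ c : Fin f → ZMod 2, ∃ x : F, x ≠ 0 ∧ mon u1 c = mon u (tC ς t₀ c) * x ^ 2 := by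
    intro c
    have h := mon_mat B.ue (tM ς t₀) hue c
    rwa [tC_eq] at h
  have hmr : ∀ φ : Fin f → ZMod 2, ∃ x : F, x ≠ 0 ∧
      mon r1 φ = mon r (tA ς t₀ φ) * mon u ((fun _ => 0 : (Fin f → ZMod 2) → Fin f → ZMod 2) (tA ς t₀ φ)) * x ^ 2 := by
    intro φ
    obtain ⟨x, hx, h⟩ := mon_mat (v := r1) B.re (fun l m => tM ς t₀ m l)
      (fun l => ⟨1, one_ne_zero, by rw [hr1, one_pow, mul_one]⟩) φ
    have h1 : (∑ l, φ l • fun m => tM ς t₀ m l) = tA ς t₀ φ := by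
      funext m
      rw [Finset.sum_apply]
      rfl
    refine ⟨x, hx, ?_⟩
    beta_reduce
    rw [h, h1, mon_zero, mul_one]
  have hsy : ∀ q, ¬ Sm y q → (fun l => sy 2 ζ q (u1 l)) = tA ς t₀ (fun l => sy 2 ζ q (u l)) := by
    intro q hq
    have hd : ¬ Dp 2 q := fun h => hq (Pool.Agent.Q123.LK.sm_of_dp B.two h)
    funext l
    show sy 2 ζ q (u1 l) = dot (fun l => sy 2 ζ q (u l)) (tM ς t₀ l)
    rw [← Pool.Agent.Q123.LK.sy_mon hBAS hζ hd B.ue (fun l => B.uo l q hq)]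
    exact Pool.Agent.Q123.LK.sy_eqv hBAS hζ hd (hue l) (mon_ne B.ue _)
      (vl_mon hBAS B.ue q (fun l => B.uo l q hq) _)
  have hg1 : ∀ φ φ' : Fin f → ZMod 2, (fun φ φ' => g (tA ς t₀ φ) (tA ς t₀ φ')) φ φ' = g (tA ς t₀ φ) (tA ς t₀ φ') +
      dot (tA ς t₀ φ') ((fun _ => 0 : (Fin f → ZMod 2) → Fin f → ZMod 2) (tA ς t₀ φ)) +
      dot (tA ς t₀ φ) ((fun _ => 0 : (Fin f → ZMod 2) → Fin f → ZMod 2) (tA ς t₀ φ')) := by
    intro φ φ'
    beta_reduce
    rw [dot_zero_right, dot_zero_right, add_zero, add_zero]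
  have B1 : Bs ζ y f u1 r1 π (fun φ φ' => g (tA ς t₀ φ) (tA ς t₀ φ')) :=
    bs_change hBAS hζ B (A := tA ς t₀) (C := tC ς t₀) (β := fun _ => 0) (tA_tA hs) (tC_tC hs) tC_zero hu1e
      (fun l => by rw [hr1]; exact mon_ne B.re _) hu1v hmu hmr
      (fun q => by rw [mon_zero, mul_one]) hsy hg1
  have F1 : Frm t s y u1 r1 (fun φ φ' => g (tA ς t₀ φ) (tA ς t₀ φ')) :=
    frm_change hBAS B hF (A := tA ς t₀) (C := tC ς t₀) (β := fun _ => 0) hmu hmr (dot_tA_tC hs) hg1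
  have ht1 : u1 t₀ = -1 := by
    rw [hu1]
    exact if_pos rfl
  -- the second change
  generalize (fun φ φ' => g (tA ς t₀ φ) (tA ς t₀ φ')) = g1 at B1 F1
  have hA := alt_h hBAS B1 H F1 hfin ht1
  obtain ⟨h, hh⟩ : ∃ h : (Fin f → ZMod 2) → (Fin f → ZMod 2) → ZMod 2,
      h = fun φ φ' => g1 φ φ' + gs t₀ φ φ' := ⟨_, rfl⟩
  rw [← hh] at hA
  have hmu2 : ∀ c : Fin f → ZMod 2, ∃ x : F, x ≠ 0 ∧ mon u1 c = mon u1 (id c) * x ^ 2 :=
    fun c => ⟨1, one_ne_zero, by rw [one_pow, mul_one, id]⟩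
  have hmr2 : ∀ φ : Fin f → ZMod 2, ∃ x : F, x ≠ 0 ∧
      mon (rn u1 r1 h) φ = mon r1 (id φ) * mon u1 (bta h (id φ)) * x ^ 2 := fun φ => mon_new B1.ue φ
  have hg2 : ∀ φ φ' : Fin f → ZMod 2, gs t₀ φ φ' = g1 (id φ) (id φ') + dot (id φ') (bta h (id φ)) +
      dot (id φ) (bta h (id φ')) := by
    intro φ φ'
    have h1 := g_bta hA φ φ'
    have h2 : h φ φ' = g1 φ φ' + gs t₀ φ φ' := by rw [hh]
    have h3 := zz (g1 φ φ')
    simp only [id]
    linear_combination h1 - h2 - h3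
  refine ⟨t₀, u1, rn u1 r1 h, pin ζ u1 π h, ?_, ?_, ht1⟩
  · exact bs_change hBAS hζ B1 (A := id) (C := id) (β := bta h) (fun _ => rfl) (fun _ => rfl) rfl B1.ue
      (fun l => mul_ne_zero (B1.re l) (mon_ne B1.ue _)) B1.uo hmu2 hmr2 (fun q => rfl) (fun q _ => rfl) hg2
  · exact frm_change hBAS B1 F1 hmu2 hmr2 (fun _ _ => rfl) hg2

end Pool.Agent.Q153.FG
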