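import Pool.Agent.Q283.FG.Stm3
import Pool.Agent.Q162.FT.KSL

/-!
# Project FG (helper283), job KSL: local triviality and the covering, with the real places (by helper153)

Template: `Pool/Agent/Q162/FT/KSL.lean` (helper162).
-/

set_option autoImplicit false

namespace Pool.Agent.Q153.FG.KS

open NumberField IsDedekindDomain WeierstrassCurve
open Pool.Agent.TH841.SH (IsR IsX gf isX_zero isX_some not_isX)
open Pool.Agent.TH841.SH.D (Coch Pt act Gal IsCoc IsCob LocTriv)
open Pool.Agent.Q283.FT (crv Rt df AX Cov Ks)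
open Pool.Agent.Q283.FG (Cx RX S_AXP S_KSL)
open Pool.Agent.Q162.FT (pt pt_cases pt_inj pt_ne pt_cg act_some act_act act_isX exists_G fix_mem ne_neg sq_iff
  sq_one_iff crv_isR jj ga ga_fix htow tors_fix exists_restr loc_inf)

section cls

variable {F : Type} [Field F] {e : Fin 3 → F} {K : Type} [Field K] [Algebra F K] [CharZero K]

theorem cls_iff (he : Rt e) {a b : K} (ha : a ≠ 0) (hb : b ≠ 0) {A B : AlgebraicClosure K}
    (hA : A ^ 2 = algebraMap K _ a) (hB : B ^ 2 = algebraMap K _ b) (P : Pt (crv e) K)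
    (R : Pt (crv e) (AlgebraicClosure K)) (hR : R + R = act (crv e) (jj F K) P) :
    Cx e K P a b ↔ ∀ τ : Gal K,
      (τ A = A ↔ IsX ((crv e).baseChange (AlgebraicClosure K)) (algebraMap F _ (e 0)) (act (crv e) (ga F τ) R - R)) ∧
      (τ B = B ↔ IsX ((crv e).baseChange (AlgebraicClosure K)) (algebraMap F _ (e 1)) (act (crv e) (ga F τ) R - R)) := by
  have h2 : (2 : AlgebraicClosure K) ≠ 0 := two_ne_zero
  have h01 : e 0 ≠ e 1 := fun h => absurd (he.inj h) (by decide)
  have h02 : e 0 ≠ e 2 := fun h => absurd (he.inj h) (by decide)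
  have h12 : e 1 ≠ e 2 := fun h => absurd (he.inj h) (by decide)
  have hinj : Function.Injective (algebraMap K (AlgebraicClosure K)) := (algebraMap K _).injective
  have hA0 : A ≠ 0 := by
    rintro rfl
    rw [zero_pow two_ne_zero] at hA
    exact ha ((map_eq_zero _).1 hA.symm)
  have hB0 : B ≠ 0 := by
    rintro rfl
    rw [zero_pow two_ne_zero] at hB
    exact hb ((map_eq_zero _).1 hB.symm)
  have hI := crv_isR he (AlgebraicClosure K)
  rcases pt_cases P with rfl | ⟨x, y, hn, rfl⟩
  · -- the zero point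
    have hRR : R + R = 0 := hR.trans (map_zero _)
    have hT : ∀ τ : Gal K, act (crv e) (ga F τ) R - R = 0 := fun τ => by rw [tors_fix he τ hRR, sub_self]
    have e1 : Cx e K 0 a b ↔ IsSquare a ∧ IsSquare b := by
      constructor
      · rintro ⟨-, -, ⟨-, h⟩ | ⟨x, y, hn, h, -⟩⟩
        · exact h
        · exact absurd h.symm (Affine.Point.some_ne_zero _)
      · intro h
        exact ⟨ha, hb, Or.inl ⟨rfl, h⟩⟩
    rw [e1, sq_one_iff h2 hA hA0, sq_one_iff h2 hB hB0, ← forall_and]
    refine forall_congr' fun τ => ?_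
    rw [hT τ]
    exact ⟨fun h => ⟨⟨fun _ => isX_zero _, fun _ => h.1⟩, ⟨fun _ => isX_zero _, fun _ => h.2⟩⟩,
      fun h => ⟨h.1.2 (isX_zero _), h.2.2 (isX_zero _)⟩⟩
  · -- a finite point
    have hR' := hR
    rw [act_some] at hR
    have hR0 : R ≠ 0 := by
      rintro rfl
      rw [add_zero] at hR
      exact pt_ne _ hR.symm
    have hTT : ∀ τ : Gal K, (act (crv e) (ga F τ) R - R) + (act (crv e) (ga F τ) R - R) = 0 := by
      intro τ
      have h3 : act (crv e) (ga F τ) R + act (crv e) (ga F τ) R = R + R := by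
        rw [← map_add, hR', ga_fix]
      have h4 : (act (crv e) (ga F τ) R - R) + (act (crv e) (ga F τ) R - R) =
        (act (crv e) (ga F τ) R + act (crv e) (ga F τ) R) - (R + R) := by abel
      rw [h4, h3, sub_self]
    rcases pt_cases R with rfl | ⟨u, v, hnR, rfl⟩
    · exact absurd rfl hR0
    have hv : v ≠ 0 := by
      intro hv
      let _ : DecidableEq (AlgebraicClosure K) := Classical.decEq _
      have h5 := (hI.add_self h2 hnR).2 hv
      exact pt_ne _ (hR.symm.trans h5)
    obtain ⟨G, hG0, hG, hGs⟩ := exists_G h2 hI h01 h02 h12 hnR hv _ hR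
    obtain ⟨G', hG0', hG', hGs'⟩ := exists_G h2 hI.swap h01.symm h12 h02 hnR hv _ hR
    have hadd : ∀ τ : Gal K, act (crv e) (ga F τ) (pt (crv e) hnR) =
        (pt (crv e) hnR) + (act (crv e) (ga F τ)
          (pt (crv e) hnR) - (pt (crv e) hnR)) :=
      fun τ => by abel
    have k1 : ∀ τ : Gal K, τ G = G ↔ IsX ((crv e).baseChange (AlgebraicClosure K)) (algebraMap F _ (e 0))
        (act (crv e) (ga F τ) (pt (crv e) hnR) -
          (pt (crv e) hnR)) := by
      intro τ
      obtain ⟨s1, s2⟩ := hGs (ga F τ) _ (hTT τ) (hadd τ)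
      refine ⟨fun h => ?_, fun h => s1 h⟩
      by_contra h3
      have h4 : τ G = -G := s2 h3
      exact ne_neg h2 hG0 (h4.symm.trans h)
    have k2 : ∀ τ : Gal K, τ G' = G' ↔ IsX ((crv e).baseChange (AlgebraicClosure K)) (algebraMap F _ (e 1))
        (act (crv e) (ga F τ) (pt (crv e) hnR) -
          (pt (crv e) hnR)) := by
      intro τ
      obtain ⟨s1, s2⟩ := hGs' (ga F τ) _ (hTT τ) (hadd τ)
      refine ⟨fun h => ?_, fun h => s1 h⟩
      by_contra h3
      have h4 : τ G' = -G' := s2 h3
      exact ne_neg h2 hG0' (h4.symm.trans h)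
    have d0 : df e 0 = e 1 - e 2 := rfl
    have d1 : df e 1 = e 0 - e 2 := rfl
    have d2 : df e 2 = e 0 - e 1 := rfl
    have c1 : ((x ≠ algebraMap F K (e 0) ∧ IsSquare (a * (x - algebraMap F K (e 0)))) ∨
        (x = algebraMap F K (e 0) ∧ IsSquare (a * algebraMap F K (df e 1 * df e 2)))) ↔
        ∀ τ : Gal K, (τ A = A ↔ τ G = G) := by
      rcases hG with ⟨hx, hG⟩ | ⟨hx, hG⟩
      · have hx' : x ≠ algebraMap F K (e 0) := by
          rintro rfl
          exact hx (htow (e 0)).symm
        have hG1 : G ^ 2 = algebraMap K (AlgebraicClosure K) (x - algebraMap F K (e 0)) := by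
          rw [hG, map_sub, ← htow]
          rfl
        rw [← sq_iff h2 hA hG1 hA0 hG0]
        exact ⟨fun h => h.elim (fun h => h.2) (fun h => absurd h.1 hx'), fun h => Or.inl ⟨hx', h⟩⟩
      · have hx' : x = algebraMap F K (e 0) := by
          apply hinj
          rw [← htow]
          exact hx
        have hG1 : G ^ 2 = algebraMap K (AlgebraicClosure K) (algebraMap F K (df e 1 * df e 2)) := by
          rw [hG, ← htow, d1, d2, map_mul, map_sub, map_sub]
          ring
        rw [← sq_iff h2 hA hG1 hA0 hG0]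
        exact ⟨fun h => h.elim (fun h => absurd hx' h.1) (fun h => h.2), fun h => Or.inr ⟨hx', h⟩⟩
    have c2 : ((x ≠ algebraMap F K (e 1) ∧ IsSquare (b * (x - algebraMap F K (e 1)))) ∨
        (x = algebraMap F K (e 1) ∧ IsSquare (b * algebraMap F K (-(df e 0 * df e 2))))) ↔
        ∀ τ : Gal K, (τ B = B ↔ τ G' = G') := by
      rcases hG' with ⟨hx, hG⟩ | ⟨hx, hG⟩
      · have hx' : x ≠ algebraMap F K (e 1) := by
          rintro rfl
          exact hx (htow (e 1)).symm
        have hG1 : G' ^ 2 = algebraMap K (AlgebraicClosure K) (x - algebraMap F K (e 1)) := by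
          rw [hG, map_sub, ← htow]
          rfl
        rw [← sq_iff h2 hB hG1 hB0 hG0']
        exact ⟨fun h => h.elim (fun h => h.2) (fun h => absurd h.1 hx'), fun h => Or.inl ⟨hx', h⟩⟩
      · have hx' : x = algebraMap F K (e 1) := by
          apply hinj
          rw [← htow]
          exact hx
        have hG1 : G' ^ 2 = algebraMap K (AlgebraicClosure K) (algebraMap F K (-(df e 0 * df e 2))) := by
          rw [hG, ← htow, d0, d2, map_neg, map_mul, map_sub, map_sub]
          ring
        rw [← sq_iff h2 hB hG1 hB0 hG0']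
        exact ⟨fun h => h.elim (fun h => absurd hx' h.1) (fun h => h.2), fun h => Or.inr ⟨hx', h⟩⟩
    have e1 : Cx e K (pt (crv e) hn) a b ↔
        ((x ≠ algebraMap F K (e 0) ∧ IsSquare (a * (x - algebraMap F K (e 0)))) ∨
          (x = algebraMap F K (e 0) ∧ IsSquare (a * algebraMap F K (df e 1 * df e 2)))) ∧
        ((x ≠ algebraMap F K (e 1) ∧ IsSquare (b * (x - algebraMap F K (e 1)))) ∨
          (x = algebraMap F K (e 1) ∧ IsSquare (b * algebraMap F K (-(df e 0 * df e 2))))) := by
      constructor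
      · rintro ⟨-, -, ⟨h, -⟩ | ⟨x', y', hn', h, h3, h4⟩⟩
        · exact absurd h (pt_ne _)
        · obtain ⟨rfl, rfl⟩ := pt_inj h
          exact ⟨h3, h4⟩
      · rintro ⟨h3, h4⟩
        exact ⟨ha, hb, Or.inr ⟨x, y, hn, rfl, h3, h4⟩⟩
    rw [e1, c1, c2, ← forall_and]
    exact forall_congr' fun τ => by rw [k1 τ, k2 τ]

/-- the general form of the theorem -/
theorem coh_iff (he : Rt e) {a b : K} (ha : a ≠ 0) (hb : b ≠ 0) {A B : AlgebraicClosure K}
    (hA : A ^ 2 = algebraMap K _ a) (hB : B ^ 2 = algebraMap K _ b) (c : Gal K → Pt (crv e) (AlgebraicClosure K))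
    (hc : ∀ τ, c τ + c τ = 0)
    (hc0 : ∀ τ : Gal K, τ A = A ↔ IsX ((crv e).baseChange (AlgebraicClosure K)) (algebraMap F _ (e 0)) (c τ))
    (hc1 : ∀ τ : Gal K, τ B = B ↔ IsX ((crv e).baseChange (AlgebraicClosure K)) (algebraMap F _ (e 1)) (c τ)) :
    (∃ R : Pt (crv e) (AlgebraicClosure K), ∀ τ, c τ = act (crv e) (ga F τ) R - R) ↔
      ∃ P : Pt (crv e) K, Cx e K P a b := by
  let _ : DecidableEq (AlgebraicClosure K) := Classical.decEq _
  have h2 : (2 : AlgebraicClosure K) ≠ 0 := two_ne_zero
  have h2K : (2 : K) ≠ 0 := two_ne_zero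
  have hinj : Function.Injective (algebraMap K (AlgebraicClosure K)) := (algebraMap K _).injective
  have hinjF : Function.Injective (algebraMap F K) := (algebraMap F _).injective
  have hinjΩ : Function.Injective (algebraMap F (AlgebraicClosure K)) := (algebraMap F _).injective
  have h01 : e 0 ≠ e 1 := fun h => absurd (he.inj h) (by decide)
  have h02 : e 0 ≠ e 2 := fun h => absurd (he.inj h) (by decide)
  have h12 : e 1 ≠ e 2 := fun h => absurd (he.inj h) (by decide)
  have hI := crv_isR he (AlgebraicClosure K)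
  have hIK := crv_isR he K
  constructor
  · rintro ⟨R, hR⟩
    have hfix : ∀ τ : Gal K, act (crv e) (ga F τ) (R + R) = R + R := by
      intro τ
      have h3 : act (crv e) (ga F τ) R = R + c τ := by
        rw [hR τ]
        abel
      rw [map_add, h3]
      have h4 : (R + c τ) + (R + c τ) = (R + R) + (c τ + c τ) := by abel
      rw [h4, hc, add_zero]
    obtain ⟨P, hP⟩ : ∃ P : Pt (crv e) K, R + R = act (crv e) (jj F K) P := by
      generalize R + R = Q at hfix
      rcases pt_cases Q with rfl | ⟨X, Y, hn, rfl⟩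
      · exact ⟨0, (map_zero _).symm⟩
      · have hXY : ∀ τ : Gal K, τ X = X ∧ τ Y = Y := by
          intro τ
          have h6 := hfix τ
          rw [act_some] at h6
          exact pt_inj h6
        obtain ⟨x, hx⟩ := fix_mem (K := K) X (fun τ => (hXY τ).1)
        obtain ⟨y, hy⟩ := fix_mem (K := K) Y (fun τ => (hXY τ).2)
        have hey : y ^ 2 = (x - algebraMap F K (e 0)) * (x - algebraMap F K (e 1)) * (x - algebraMap F K (e 2)) := by
          apply hinj
          have h9 := (hI.eqn X Y).1 hn.1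
          rw [map_pow, map_mul, map_mul, map_sub, map_sub, map_sub, hx, hy, ← htow, ← htow, ← htow, h9]
        have hn1 := hIK.nons h2K (hinjF.ne h01) (hinjF.ne h02) (hinjF.ne h12) hey
        refine ⟨pt (crv e) hn1, ?_⟩
        rw [act_some]
        exact pt_cg hx.symm hy.symm
    refine ⟨P, (cls_iff he ha hb hA hB P R hP).2 fun τ => ?_⟩
    rw [← hR τ]
    exact ⟨hc0 τ, hc1 τ⟩
  · rintro ⟨P, hP⟩
    obtain ⟨R, hR⟩ : ∃ R : Pt (crv e) (AlgebraicClosure K), act (crv e) (jj F K) P = R + R :=
      hI.div h2 (hinjΩ.ne h01) (hinjΩ.ne h02) (hinjΩ.ne h12) _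
    refine ⟨R, fun τ => ?_⟩
    have h3 := (cls_iff he ha hb hA hB P R hR.symm).1 hP τ
    have h4 : (act (crv e) (ga F τ) R - R) + (act (crv e) (ga F τ) R - R) = 0 := by
      have h5 : (act (crv e) (ga F τ) R - R) + (act (crv e) (ga F τ) R - R) =
        act (crv e) (ga F τ) (R + R) - (R + R) := by
        rw [map_add]
        abel
      rw [h5, ← hR, ga_fix, sub_self]
    refine hI.ext h2 (hinjΩ.ne h01) (hinjΩ.ne h02) (hinjΩ.ne h12) (hc τ) h4 ?_ ?_
    · rw [← hc0 τ]
      exact h3.1
    · rw [← hc1 τ]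
      exact h3.2

end cls

/-- local triviality, for every extension field -/
theorem loc_iff {F : Type} [Field F] {e : Fin 3 → F} (he : Rt e) {a b : F} (ha : a ≠ 0)
    (hb : b ≠ 0) {f : Coch (crv e)} (hf : ∀ σ, f σ + f σ = 0) {α β : AlgebraicClosure F}
    (hα : α ^ 2 = algebraMap F _ a) (hβ : β ^ 2 = algebraMap F _ b)
    (h0 : ∀ σ : Gal F, σ α = α ↔ IsX ((crv e).baseChange (AlgebraicClosure F)) (algebraMap F _ (e 0)) (f σ))
    (h1 : ∀ σ : Gal F, σ β = β ↔ IsX ((crv e).baseChange (AlgebraicClosure F)) (algebraMap F _ (e 1)) (f σ))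
    (K : Type) [Field K] [Algebra F K] [CharZero K] :
    LocTriv (crv e) K f ↔ ∃ P : Pt (crv e) K, Cx e K P (algebraMap F K a) (algebraMap F K b) := by
  have key : ∀ ι : AlgebraicClosure F →ₐ[F] AlgebraicClosure K,
      (∃ P : Pt (crv e) (AlgebraicClosure K), ∀ (τ : Gal K) (σ : Gal F), (∀ x, τ (ι x) = ι (σ x)) →
        act (crv e) ι (f σ) = act (crv e) (τ.toAlgHom.restrictScalars F) P - P) ↔
      ∃ P : Pt (crv e) K, Cx e K P (algebraMap F K a) (algebraMap F K b) := by
    intro ι
    choose r hr using fun τ : Gal K => exists_restr ι τ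
    have huniq : ∀ (τ : Gal K) (σ : Gal F), (∀ x, τ (ι x) = ι (σ x)) → σ = r τ := by
      intro τ σ h
      refine AlgEquiv.ext fun x => ι.injective ?_
      have h4 : ι (σ x) = ι (r τ x) := by rw [← h, ← hr]
      exact h4
    have hc : ∀ τ : Gal K, act (crv e) ι (f (r τ)) + act (crv e) ι (f (r τ)) = 0 := by
      intro τ
      rw [← map_add, hf, map_zero]
    have hA : (ι α) ^ 2 = algebraMap K (AlgebraicClosure K) (algebraMap F K a) := by
      rw [← map_pow, hα, ι.commutes, htow]
    have hB : (ι β) ^ 2 = algebraMap K (AlgebraicClosure K) (algebraMap F K b) := by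
      rw [← map_pow, hβ, ι.commutes, htow]
    have hc0 : ∀ τ : Gal K, τ (ι α) = ι α ↔ IsX ((crv e).baseChange (AlgebraicClosure K)) (algebraMap F _ (e 0))
        (act (crv e) ι (f (r τ))) := by
      intro τ
      rw [act_isX, ← h0, hr]
      exact ⟨fun h => ι.injective h, fun h => by rw [h]⟩
    have hc1 : ∀ τ : Gal K, τ (ι β) = ι β ↔ IsX ((crv e).baseChange (AlgebraicClosure K)) (algebraMap F _ (e 1))
        (act (crv e) ι (f (r τ))) := by
      intro τ
      rw [act_isX, ← h1, hr]
      exact ⟨fun h => ι.injective h, fun h => by rw [h]⟩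
    rw [← coh_iff he ((map_ne_zero _).2 ha) ((map_ne_zero _).2 hb) hA hB (fun τ => act (crv e) ι (f (r τ))) hc hc0 hc1]
    refine exists_congr fun P => ⟨fun h τ => h τ (r τ) (hr τ), fun h τ σ hσ => ?_⟩
    rw [huniq τ σ hσ]
    exact h τ
  obtain ⟨ι⟩ : Nonempty (AlgebraicClosure F →ₐ[F] AlgebraicClosure K) := ⟨IsAlgClosed.lift⟩
  exact ⟨fun h => (key ι).1 (h ι), fun h ι' => (key ι').2 h⟩
/-! ## The real places -/

/-- the covering over a field isomorphic to the real numbers -/
theorem cov_iff {F : Type} [Field F] {φ : F →+* ℝ} (e : Fin 3 → F) {a b : F} (ha : a ≠ 0) (hb : b ≠ 0)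
    {K : Type} [Field K] [Algebra F K] (ψ : K ≃+* ℝ) (h : ∀ x : F, ψ (algebraMap F K x) = φ x) :
    Cov e K a b ↔ RX φ e a b := by
  constructor
  · rintro ⟨z, w, hzw, h1, h2⟩
    refine ⟨ha, hb, fun i => ψ (z i), ψ w, ?_, ?_, ?_⟩
    · rcases hzw with hz | hw
      · left
        intro h0
        apply hz
        funext i
        exact (map_eq_zero_iff ψ ψ.injective).1 (congrFun h0 i)
      · right
        intro h0
        exact hw ((map_eq_zero_iff ψ ψ.injective).1 h0)
    · have h3 := congrArg ψ h1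
      simp only [map_add, map_mul, map_pow, h] at h3
      exact h3
    · have h3 := congrArg ψ h2
      simp only [map_add, map_mul, map_pow, h] at h3
      simp only [map_mul]
      exact h3
  · rintro ⟨-, -, z, w, hzw, h1, h2⟩
    have h' : ∀ x : F, ψ.symm (φ x) = algebraMap F K x := fun x => by
      rw [← h, RingEquiv.symm_apply_apply]
    refine ⟨fun i => ψ.symm (z i), ψ.symm w, ?_, ?_, ?_⟩
    · rcases hzw with hz | hw
      · left
        intro h0
        apply hz
        funext i
        exact (map_eq_zero_iff ψ.symm ψ.symm.injective).1 (congrFun h0 i)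
      · right
        intro h0
        exact hw ((map_eq_zero_iff ψ.symm ψ.symm.injective).1 h0)
    · have h3 := congrArg ψ.symm h1
      simp only [map_add, map_mul, map_pow, h'] at h3
      exact h3
    · have h3 := congrArg ψ.symm h2
      simp only [map_add, map_mul, map_pow, h'] at h3
      simp only [map_mul]
      exact h3

/-- every real embedding belongs to a real place -/
theorem exists_place {F : Type} [Field F] [NumberField F] (φ : F →+* ℝ) :
    ∃ (v : InfinitePlace F) (hv : v.IsReal), InfinitePlace.embedding_of_isReal hv = φ := by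
  have h1 : ComplexEmbedding.IsReal (Complex.ofRealHom.comp φ) := by
    rw [ComplexEmbedding.isReal_iff]
    refine RingHom.ext fun x => ?_
    rw [ComplexEmbedding.conjugate_coe_eq]
    exact Complex.conj_ofReal _
  refine ⟨InfinitePlace.mk (Complex.ofRealHom.comp φ), InfinitePlace.isReal_mk_iff.2 h1, ?_⟩
  refine RingHom.ext fun x => ?_
  apply Complex.ofReal_injective
  rw [InfinitePlace.embedding_of_isReal_apply, InfinitePlace.embedding_mk_eq_of_isReal h1]
  rfl

/-- the real places -/
theorem real_place {F : Type} [Field F] [NumberField F] (e : Fin 3 → F) {a b : F} (ha : a ≠ 0) (hb : b ≠ 0)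
    (v : InfinitePlace F) (hv : v.IsReal) :
    Cov e v.Completion a b ↔ RX (InfinitePlace.embedding_of_isReal hv) e a b := by
  refine cov_iff e ha hb (InfinitePlace.Completion.ringEquivRealOfIsReal hv) fun x => ?_
  rw [InfinitePlace.Completion.ringEquivRealOfIsReal_apply, InfinitePlace.Completion.algebraMap_apply]
  exact InfinitePlace.Completion.extensionEmbeddingOfIsReal_coe hv _

/-- **JOB KSL** -/
theorem ksl (hAXP : S_AXP) : S_KSL := by
  intro F _ _ e he a b f ha hb hf
  obtain ⟨hf2, α, β, hα, hβ, hs⟩ := hf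
  have h01 : e 0 ≠ e 1 := fun h => absurd (he.inj h) (by decide)
  have key : ∀ (K : Type) [Field K] [Algebra F K] [CharZero K], LocTriv (crv e) K f ↔ Cov e K a b := by
    intro K _ _ _
    rw [loc_iff he ha hb hf2 hα hβ (fun σ => (hs σ).1) (fun σ => (hs σ).2) K]
    exact (hAXP F e he K a b ha hb).symm
  refine ⟨fun v => ?_, ?_⟩
  · have : CharZero (v.adicCompletion F) := charZero_of_injective_algebraMap (algebraMap F _).injective
    rw [key (v.adicCompletion F)]
    exact ⟨fun h => ⟨ha, hb, h⟩, fun h => h.2.2⟩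
  · have hreal : ∀ (v : InfinitePlace F) (hv : v.IsReal),
        LocTriv (crv e) v.Completion f ↔ RX (InfinitePlace.embedding_of_isReal hv) e a b := by
      intro v hv
      have : CharZero v.Completion := charZero_of_injective_algebraMap (algebraMap F _).injective
      rw [key v.Completion, real_place e ha hb v hv]
    constructor
    · intro h φ
      obtain ⟨v, hv, rfl⟩ := exists_place φ
      exact (hreal v hv).1 (h v)
    · intro h v
      rcases v.isReal_or_isComplex with hv | hv
      · exact (hreal v hv).2 (h _)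
      · refine loc_inf v hv _ ?_
        have h3 := (hs 1).1.1 rfl
        have h4 := (hs 1).2.1 rfl
        rcases h3 with h3 | ⟨y, h, h3⟩
        · exact h3
        · rcases h4 with h4 | ⟨y', h', h4⟩
          · exact h4
          · exfalso
            have h5 := (Affine.Point.some.inj (h3.symm.trans h4)).1
            exact h01 ((algebraMap F (AlgebraicClosure F)).injective h5)

end Pool.Agent.Q153.FG.KS
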